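import Mathlib

namespace Pool.Agent.Results.MP_ace2a1_co.TwoEdgesCounterexample

/-- Chain-structured system on the vertex set `Fin (n+1)`: for some cyclic ordering `v` of the
vertices (indices mod `n+1`), every hyperedge is a nonempty run of cyclically consecutive
vertices. -/
def IsChainStructured {n : ℕ} (E : Finset (Finset (Fin (n + 1)))) : Prop :=
  ∃ v : Equiv.Perm (Fin (n + 1)), ∀ e ∈ E, ∃ (i : Fin (n + 1)) (l : ℕ), 1 ≤ l ∧ l ≤ n + 1 ∧
    e = (Finset.range l).image (fun t => v (i + Fin.ofNat (n + 1) t))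

/-- Exactly two hyperedges have two vertices, and all other hyperedges have at least three. -/
def TwoTwoEdges {n : ℕ} (E : Finset (Finset (Fin (n + 1)))) : Prop :=
  (E.filter (fun e => e.card = 2)).card = 2 ∧ ∀ e ∈ E, e.card = 2 ∨ 3 ≤ e.card

def σ : Equiv.Perm (Fin 6) := ⟨![0, 3, 5, 1, 4, 2], ![0, 3, 5, 1, 4, 2], by decide, by decide⟩

theorem result : ∃ (n : ℕ) (E₁ E₂ : Finset (Finset (Fin (n + 1)))),
    IsChainStructured E₁ ∧ IsChainStructured E₂ ∧ TwoTwoEdges E₁ ∧ TwoTwoEdges E₂ ∧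
    (∃ φ : Equiv.Perm (Fin (n + 1)), E₁.image (fun e => e.image φ) = E₂) ∧
    ¬ ∃ A : Finset (Fin (n + 1)), (∀ e ∈ E₁, ¬ e ⊆ A) ∧ ∀ e ∈ E₂, ¬ e ⊆ Aᶜ := by
  refine ⟨5, {{0, 1}, {3, 4}, {1, 2, 3}, {4, 5, 0}}, {{0, 3}, {1, 4}, {3, 5, 1}, {4, 2, 0}},
    ⟨1, ?_⟩, ⟨σ, ?_⟩, ⟨by decide +kernel, by decide +kernel⟩,
    ⟨by decide +kernel, by decide +kernel⟩, ⟨σ, by decide +kernel⟩, by decide +kernel⟩
  · intro e he
    simp only [Finset.mem_insert, Finset.mem_singleton] at he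
    rcases he with rfl | rfl | rfl | rfl
    · exact ⟨0, 2, by decide +kernel⟩
    · exact ⟨3, 2, by decide +kernel⟩
    · exact ⟨1, 3, by decide +kernel⟩
    · exact ⟨4, 3, by decide +kernel⟩
  · intro e he
    simp only [Finset.mem_insert, Finset.mem_singleton] at he
    rcases he with rfl | rfl | rfl | rfl
    · exact ⟨0, 2, by decide +kernel⟩
    · exact ⟨3, 2, by decide +kernel⟩
    · exact ⟨1, 3, by decide +kernel⟩
    · exact ⟨4, 3, by decide +kernel⟩

end Pool.Agent.Results.MP_ace2a1_co.TwoEdgesCounterexample
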